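import Pool.Agent.MP_13e7a1_an.H82.Spec

/-! Composition operators on bounded continuous functions are smooth. -/

open scoped ContDiff Topology BoundedContinuousFunction
open Set Metric Filter

noncomputable section

namespace Pool.Agent.MP_13e7a1_an.H63

variable {F : Type} [NormedAddCommGroup F] [NormedSpace ℝ F] [FiniteDimensional ℝ F]

lemma bdd {G : Type} [NormedAddCommGroup G] {g : F → G} (hg : Continuous g) (f : ℂ →ᵇ F) :
    ∃ C, ∀ x y, dist (g (f x)) (g (f y)) ≤ C := by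
  obtain ⟨C, hC⟩ := (isCompact_closedBall (0 : F) ‖f‖).exists_bound_of_continuousOn hg.continuousOn
  have h : ∀ x, ‖g (f x)‖ ≤ C := fun x =>
    hC _ (mem_closedBall_zero_iff.2 (f.norm_coe_le_norm x))
  exact ⟨C + C, fun x y => (dist_le_norm_add_norm _ _).trans (add_le_add (h x) (h y))⟩

def Nem {G : Type} [NormedAddCommGroup G] (g : F → G) (hg : Continuous g) (f : ℂ →ᵇ F) : ℂ →ᵇ G :=
  ⟨⟨fun z => g (f z), hg.comp f.continuous⟩, bdd hg f⟩

lemma Nem_apply {G : Type} [NormedAddCommGroup G] (g : F → G) (hg : Continuous g) (f : ℂ →ᵇ F)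
    (z : ℂ) : Nem g hg f z = g (f z) := rfl

lemma unif {G : Type} [NormedAddCommGroup G] {g : F → G} (hg : Continuous g) (f : ℂ →ᵇ F)
    {ε : ℝ} (hε : 0 < ε) : ∃ δ > 0, ∀ z y, ‖y - f z‖ < δ → ‖g y - g (f z)‖ ≤ ε := by
  obtain ⟨δ, d0, h⟩ := Metric.uniformContinuousOn_iff.1
    ((isCompact_closedBall (0 : F) (‖f‖ + 1)).uniformContinuousOn_of_continuous hg.continuousOn) ε hε
  refine ⟨min δ 1, lt_min d0 one_pos, fun z y hy => ?_⟩
  have h1 := f.norm_coe_le_norm z
  have h2 := norm_le_norm_sub_add y (f z)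
  have := h y (mem_closedBall_zero_iff.2 (by linarith [min_le_right δ 1])) (f z)
    (mem_closedBall_zero_iff.2 (by linarith)) (by rw [dist_eq_norm]; linarith [min_le_left δ 1])
  rw [dist_eq_norm] at this
  exact this.le

lemma Nem_cont {G : Type} [NormedAddCommGroup G] {g : F → G} (hg : Continuous g) :
    Continuous (Nem g hg) := by
  refine Metric.continuous_iff.2 fun f ε hε => ?_
  obtain ⟨δ, d0, h⟩ := unif hg f (half_pos hε)
  refine ⟨δ, d0, fun f' hf => lt_of_le_of_lt ?_ (half_lt_self hε)⟩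
  refine (BoundedContinuousFunction.dist_le (half_pos hε).le).2 fun z => ?_
  rw [dist_eq_norm]
  exact h z _ (by rw [← dist_eq_norm]; exact (f'.dist_coe_le_dist z).trans_lt hf)

variable {G : Type} [NormedAddCommGroup G] [NormedSpace ℝ G]

omit [FiniteDimensional ℝ F] in
lemma app_bd (A : ℂ →ᵇ (F →L[ℝ] G)) (h : ℂ →ᵇ F) (z : ℂ) : ‖A z (h z)‖ ≤ ‖A‖ * ‖h‖ :=
  ((A z).le_opNorm _).trans (mul_le_mul (A.norm_coe_le_norm z) (h.norm_coe_le_norm z)
    (norm_nonneg _) ((norm_nonneg _).trans (A.norm_coe_le_norm z)))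

def app (A : ℂ →ᵇ (F →L[ℝ] G)) (h : ℂ →ᵇ F) : ℂ →ᵇ G :=
  BoundedContinuousFunction.ofNormedAddCommGroup (fun z => A z (h z))
    (A.continuous.clm_apply h.continuous) (‖A‖ * ‖h‖) (app_bd A h)

def LL : (ℂ →ᵇ (F →L[ℝ] G)) →L[ℝ] (ℂ →ᵇ F) →L[ℝ] (ℂ →ᵇ G) :=
  LinearMap.mkContinuous₂ (E := ℂ →ᵇ (F →L[ℝ] G)) (F := ℂ →ᵇ F) (G := ℂ →ᵇ G)
    (LinearMap.mk₂ ℝ (app (F := F) (G := G))
    (fun A B h => by ext z; simp [app]) (fun c A h => by ext z; simp [app])
    (fun A h k => by ext z; simp [app]) (fun c A h => by ext z; simp [app])) 1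
    fun A h => by
      rw [one_mul]
      exact (BoundedContinuousFunction.norm_le (by positivity)).2 (app_bd A h)

lemma Nem_der {g : F → G} (hg : ContDiff ℝ 1 g) (f : ℂ →ᵇ F) :
    HasFDerivAt (Nem g hg.continuous)
      (LL (Nem (fderiv ℝ g) (hg.continuous_fderiv one_ne_zero) f)) f := by
  rw [hasFDerivAt_iff_isLittleO_nhds_zero, Asymptotics.isLittleO_iff]
  intro ε hε
  obtain ⟨δ, d0, h⟩ := unif (hg.continuous_fderiv one_ne_zero) f hε
  filter_upwards [ball_mem_nhds (0 : ℂ →ᵇ F) d0] with k hk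
  rw [mem_ball_zero_iff] at hk
  refine (BoundedContinuousFunction.norm_le (by positivity)).2 fun z => ?_
  have h1 := k.norm_coe_le_norm z
  have h2 := (convex_ball (f z) δ).norm_image_sub_le_of_norm_fderiv_le' (𝕜 := ℝ) (f := g)
    (φ := fderiv ℝ g (f z)) (C := ε) (x := f z) (y := f z + k z)
    (fun x _ => hg.differentiable one_ne_zero x)
    (fun x hx => h z x (by rwa [mem_ball, dist_eq_norm] at hx)) (mem_ball_self d0)
    (by rw [mem_ball, dist_eq_norm, add_sub_cancel_left]; linarith)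
  rw [add_sub_cancel_left] at h2
  exact h2.trans (mul_le_mul_of_nonneg_left h1 hε.le)

lemma Nem_smooth (n : ℕ) : ∀ (G : Type) [NormedAddCommGroup G] [NormedSpace ℝ G] (g : F → G)
    (hg : ContDiff ℝ ∞ g), ContDiff ℝ n (Nem g hg.continuous) := by
  induction n with
  | zero => intro G _ _ g hg; exact contDiff_zero.2 (Nem_cont _)
  | succ n ih =>
    intro G _ _ g hg
    have h1 : ContDiff ℝ 1 g := hg.of_le (by exact_mod_cast le_top)
    rw [show ((n + 1 : ℕ) : WithTop ℕ∞) = n + 1 by push_cast; rfl, contDiff_succ_iff_fderiv]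
    refine ⟨fun f => (Nem_der h1 f).differentiableAt, by simp, ?_⟩
    rw [funext fun f => (Nem_der h1 f).fderiv]
    exact LL.contDiff.comp (ih _ _ (hg.fderiv_right (by rfl)))

theorem nemy : H82.SNemy := by
  intro F G _ _ _ _ _ g hg
  refine ⟨Nem g hg.continuous, contDiff_infty.2 fun n => Nem_smooth n G g hg, fun _ _ => rfl,
    fun f h z => ?_⟩
  rw [(Nem_der (hg.of_le (by exact_mod_cast le_top)) f).fderiv]
  rfl

end Pool.Agent.MP_13e7a1_an.H63
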